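import Pool.Agent.Q120.GL.Stm
import Pool.Agent.Q274.GL.FL
import Pool.Agent.Q274.GL.Rat
import Pool.Agent.Q52.GL.CONC
import Pool.Agent.Q52.GL.SUMM
import Pool.Agent.Q65.GL.EXT
import Pool.Agent.Q65.GL.SER
import Pool.Agent.Q84.GL.FIB

/-!
# Project GL: assembly
-/

set_option autoImplicit false

namespace Pool.Agent.Q120.GL

open Finset Filter Topology MeasureTheory Pool.Agent.Q120.GM Pool.Agent.Q120.CL Pool.Agent.Q120.MG Pool.Agent.Q120.HL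

/-- The Hardy-Littlewood term. -/
noncomputable def HLt (n : ℕ) : ℝ := SS {0, n} * n / Real.log n ^ 2

theorem log_ev {P : ℕ → Prop} (h : ∀ᶠ K : ℕ in atTop, ∀ n : ℕ, 2 ^ K ≤ n → n < 2 ^ (K + 1) → P n) : ∀ᶠ n in atTop, P n := by
  obtain ⟨K₀, hK₀⟩ := eventually_atTop.1 h
  filter_upwards [eventually_ge_atTop (2 ^ K₀)] with n hn
  have hn0 : n ≠ 0 := by
    have := Nat.two_pow_pos K₀
    omega
  exact hK₀ (Nat.log 2 n) (Nat.le_log_of_pow_le (by norm_num) hn) n (Nat.pow_log_le_self 2 hn0) (Nat.lt_pow_succ_log_self (by norm_num) n)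

/-- The expectation, for one model. -/
theorem exp_law {z : ℕ → ℕ} (hz : Monotone z) (hl : Tendsto (fun k : ℕ => Real.log (z k) / k) atTop (𝓝 0)) :
    ∀ η κ : ℝ, 0 < η → 0 < κ → κ ≤ 1 → ∀ᶠ K : ℕ in atTop, ∀ n : ℕ, 2 ^ K ≤ n → n < 2 ^ (K + 1) → ∀ G : ℝ, η ≤ G →
    ((∀ j, K ≤ 2 * j → j ≤ K → Sz {0, n} (z j) ≤ G) → EG (pr z) n ≤ (1 + κ) * (G * n / Real.log n ^ 2)) ∧
    ((∀ j, K ≤ 2 * j → j ≤ K → G ≤ Sz {0, n} (z j)) → (1 - κ) * (G * n / Real.log n ^ 2) ≤ EG (pr z) n) :=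
  Q52.GL.t_SUMM z (Pool.Agent.Q84.GL.t_FIB Pool.Agent.Q274.GL.t_FL z hz hl)

theorem SS_one {n : ℕ} (he : Even n) (hn : 2 ≤ n) : 1 ≤ SS {0, n} := (Pool.Agent.Q65.GL.t_SER.1 n he hn).2.1

/-- The error term is negligible. -/
theorem err_small {ε : ℝ} (hε : 0 < ε) : ∀ᶠ n : ℕ in atTop, Even n → (n : ℝ) ^ ((7 : ℝ) / 8) ≤ ε * HLt n := by
  have h1 : Tendsto (fun n : ℕ => Real.log n ^ 2 / (n : ℝ) ^ ((1 : ℝ) / 8)) atTop (𝓝 0) := by
    have h2 := (isLittleO_log_rpow_rpow_atTop (2 : ℝ) (show (0 : ℝ) < 1 / 8 by norm_num)).tendsto_div_nhds_zero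
    have h3 := h2.comp tendsto_natCast_atTop_atTop
    refine h3.congr (fun n => ?_)
    simp only [Function.comp_apply, Real.rpow_two]
  filter_upwards [h1.eventually_lt_const hε, eventually_ge_atTop 3] with n h2 hn he
  have hn0 : (3 : ℝ) ≤ n := by exact_mod_cast hn
  have hl : 0 < Real.log n := Real.log_pos (by linarith)
  have h3 := SS_one he (by omega)
  have hp : (0 : ℝ) < (n : ℝ) ^ ((1 : ℝ) / 8) := Real.rpow_pos_of_pos (by linarith) _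
  rw [div_lt_iff₀ hp] at h2
  have h4 : (n : ℝ) ^ ((7 : ℝ) / 8) * (n : ℝ) ^ ((1 : ℝ) / 8) = n := by
    rw [← Real.rpow_add (by linarith)]
    norm_num
  have h5 : (n : ℝ) ^ ((7 : ℝ) / 8) ≤ ε * (n / Real.log n ^ 2) := by
    rw [mul_div_assoc', le_div_iff₀ (by positivity)]
    have h6 : (0 : ℝ) ≤ (n : ℝ) ^ ((7 : ℝ) / 8) := by positivity
    have h7 := mul_le_mul_of_nonneg_left h2.le h6
    calc (n : ℝ) ^ ((7 : ℝ) / 8) * Real.log n ^ 2 ≤ (n : ℝ) ^ ((7 : ℝ) / 8) * (ε * (n : ℝ) ^ ((1 : ℝ) / 8)) := h7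
      _ = ε * ((n : ℝ) ^ ((7 : ℝ) / 8) * (n : ℝ) ^ ((1 : ℝ) / 8)) := by ring
      _ = ε * n := by rw [h4]
  refine h5.trans ?_
  apply mul_le_mul_of_nonneg_left _ hε.le
  unfold HLt
  rw [mul_div_assoc]
  exact le_mul_of_one_le_left (by positivity) h3

theorem HLt_nonneg (n : ℕ) : 0 ≤ HLt n := by
  unfold HLt
  exact div_nonneg (mul_nonneg (SS_nonneg _) (Nat.cast_nonneg _)) (by positivity)

variable {Ω : Type} [MeasurableSpace Ω] {μ : Measure Ω} [IsProbabilityMeasure μ] {A : Ω → Set ℕ} {z : ℕ → ℕ}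

theorem card_pair_le (n : ℕ) : ({0, n} : Finset ℕ).card ≤ 2 := card_le_two

/-- The upper bound. -/
theorem upper (hz : Monotone z) (hl : Tendsto (fun k : ℕ => Real.log (z k) / k) atTop (𝓝 0)) (hinf : Tendsto z atTop atTop)
    (hA : IsModel μ (pr z) A) : ∀ᵐ ω ∂μ, ∀ ε : ℝ, 0 < ε → ∀ᶠ n : ℕ in atTop, Even n → (gold (A ω) n : ℝ) ≤ (1 + ε) * HLt n := by
  filter_upwards [Q52.GL.t_CONC Ω μ (pr z) A hA] with ω hω ε hε
  obtain ⟨κ, hκ0, hκ1, hκ⟩ : ∃ κ : ℝ, 0 < κ ∧ κ ≤ 1 ∧ (1 + κ) * (1 + κ) + κ ≤ 1 + ε := by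
    refine ⟨min 1 (ε / 4), lt_min one_pos (by linarith), min_le_left _ _, ?_⟩
    have h1 := min_le_left 1 (ε / 4)
    have h2 := min_le_right 1 (ε / 4)
    have h3 : 0 < min 1 (ε / 4) := lt_min one_pos (by linarith)
    nlinarith
  have h1 : ∀ᶠ K : ℕ in atTop, ∀ j, K ≤ 2 * j → ∀ n : ℕ, Sz {0, n} (z j) ≤ (1 + κ) * SS {0, n} := by
    obtain ⟨M, hM⟩ := exists_nat_gt (16 / κ + 16)
    obtain ⟨J, hJ⟩ := eventually_atTop.1 (hinf.eventually_ge_atTop (M + 4))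
    filter_upwards [eventually_ge_atTop (2 * J)] with K hK j hj n
    have h2 : M + 4 ≤ z j := hJ j (by omega)
    have hc := card_pair_le n
    have h3 := SS_lower (D := {0, n}) (z := z j) (by omega) (by omega)
    have h4 : (M : ℝ) + 4 ≤ z j := by exact_mod_cast h2
    have h5 : (16 : ℝ) / κ + 16 ≤ z j := by linarith
    have hc' : (((({0, n} : Finset ℕ).card : ℕ)) : ℝ) ≤ 2 := by exact_mod_cast hc
    have hc0 : (0 : ℝ) ≤ ((({0, n} : Finset ℕ).card : ℕ) : ℝ) := Nat.cast_nonneg _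
    have h6 : 2 * ((({0, n} : Finset ℕ).card : ℕ) : ℝ) ^ 2 / z j ≤ 8 / z j := by
      apply div_le_div_of_nonneg_right _ (Nat.cast_nonneg _)
      nlinarith
    have h16 : (0 : ℝ) < 16 / κ := by positivity
    have h7 : 8 / (z j : ℝ) ≤ κ / 2 := by
      rw [div_le_iff₀ (by linarith)]
      have h8 : κ / 2 * (16 / κ + 16) ≤ κ / 2 * z j := mul_le_mul_of_nonneg_left h5 (by linarith)
      have h9 : κ / 2 * (16 / κ + 16) = 8 + 8 * κ := by
        field_simp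
        ring
      linarith
    have hS0 := Sz_nonneg {0, n} (z j)
    have h10 : (1 - κ / 2) * Sz {0, n} (z j) ≤ SS {0, n} :=
      (mul_le_mul_of_nonneg_right (by linarith) hS0).trans h3
    have h11 : 1 ≤ (1 + κ) * (1 - κ / 2) := by nlinarith
    calc Sz {0, n} (z j) ≤ (1 + κ) * (1 - κ / 2) * Sz {0, n} (z j) := le_mul_of_one_le_left hS0 h11
      _ = (1 + κ) * ((1 - κ / 2) * Sz {0, n} (z j)) := by ring
      _ ≤ (1 + κ) * SS {0, n} := mul_le_mul_of_nonneg_left h10 (by linarith)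
  have h2 : ∀ᶠ n : ℕ in atTop, Even n → EG (pr z) n ≤ (1 + κ) * ((1 + κ) * HLt n) := by
    apply log_ev
    filter_upwards [h1, exp_law hz hl 1 κ one_pos hκ0 hκ1, eventually_ge_atTop 1] with K h3 h4 hK n hn1 hn2 he
    have h2n : 2 ≤ n := by
      have : (2 : ℕ) ^ 1 ≤ 2 ^ K := Nat.pow_le_pow_right (by norm_num) hK
      omega
    have h5 := SS_one he h2n
    have h6 := (h4 n hn1 hn2 ((1 + κ) * SS {0, n}) (by nlinarith)).1 (fun j hj _ => h3 j hj n)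
    refine h6.trans (le_of_eq ?_)
    unfold HLt
    ring
  filter_upwards [hω, h2, err_small hκ0] with n h3 h4 h5 he
  have h6 := (abs_le.1 h3).2
  have h7 := h4 he
  have h8 := h5 he
  have h9 := mul_le_mul_of_nonneg_right hκ (HLt_nonneg n)
  linarith

/-- The lower bound. -/
theorem lower (hz : Monotone z) (hl : Tendsto (fun k : ℕ => Real.log (z k) / k) atTop (𝓝 0)) {θ : ℝ} (hθ : 0 < θ) (hθ1 : θ ≤ 1)
    (hlow : ∀ δ : ℝ, 0 < δ → ∀ᶠ k : ℕ in atTop, (k : ℝ) ^ (θ - δ) ≤ z k) (hA : IsModel μ (pr z) A) :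
    ∀ᵐ ω ∂μ, ∀ ε : ℝ, 0 < ε → ∀ᶠ n : ℕ in atTop, Even n → (θ - ε) * HLt n ≤ gold (A ω) n := by
  filter_upwards [Q52.GL.t_CONC Ω μ (pr z) A hA] with ω hω ε hε
  by_cases hεθ : θ ≤ ε
  · refine Eventually.of_forall (fun n _ => ?_)
    have h1 : (θ - ε) * HLt n ≤ 0 := mul_nonpos_of_nonpos_of_nonneg (by linarith) (HLt_nonneg n)
    exact h1.trans (Nat.cast_nonneg _)
  · rw [not_le] at hεθ
    obtain ⟨κ, hκ⟩ : ∃ κ : ℝ, κ = ε / 4 := ⟨_, rfl⟩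
    have hκ0 : 0 < κ := by linarith
    have h2 : ∀ᶠ n : ℕ in atTop, Even n → (1 - κ) * ((θ - κ) * HLt n) ≤ EG (pr z) n := by
      apply log_ev
      filter_upwards [Pool.Agent.Q274.GL.t_RAT z θ (θ - κ) hθ hθ1 (by linarith) hlow,
        exp_law hz hl (θ - κ) κ (by linarith) hκ0 (by linarith), eventually_ge_atTop 1] with K h3 h4 hK n hn1 hn2 he
      have h2n : 2 ≤ n := by
        have : (2 : ℕ) ^ 1 ≤ 2 ^ K := Nat.pow_le_pow_right (by norm_num) hK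
        omega
      have h5 := SS_one he h2n
      have h6 := (h4 n hn1 hn2 ((θ - κ) * SS {0, n}) (by nlinarith)).2 (fun j hj _ => h3 n (by omega) hn2 j hj)
      refine le_trans (le_of_eq ?_) h6
      unfold HLt
      ring
    filter_upwards [hω, h2, err_small hκ0] with n h3 h4 h5 he
    have h6 := (abs_le.1 h3).1
    have h7 := h4 he
    have h8 := h5 he
    have h9 := HLt_nonneg n
    have h10 : θ - ε ≤ (1 - κ) * (θ - κ) - κ := by nlinarith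
    have h11 := mul_le_mul_of_nonneg_right h10 h9
    linarith

/-- The extremal even numbers. -/
theorem extremal (hz : Monotone z) (hl : Tendsto (fun k : ℕ => Real.log (z k) / k) atTop (𝓝 0)) {θ : ℝ} (hθ : 0 ≤ θ) (hθ1 : θ < 1)
    (hfreq : ∀ η : ℝ, 0 < η → ∃ᶠ k : ℕ in atTop, (z k : ℝ) ≤ (k : ℝ) ^ (θ + η)) (hA : IsModel μ (pr z) A) :
    ∀ᵐ ω ∂μ, ∀ ε : ℝ, 0 < ε → ∃ᶠ n : ℕ in atTop, Even n ∧ (gold (A ω) n : ℝ) ≤ (θ + ε) * HLt n := by
  filter_upwards [Q52.GL.t_CONC Ω μ (pr z) A hA] with ω hω ε hε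
  obtain ⟨κ, hκ0, hκ1, hκ⟩ : ∃ κ : ℝ, 0 < κ ∧ κ ≤ 1 ∧ (1 + κ) * (θ + κ) + κ ≤ θ + ε := by
    refine ⟨min 1 (ε / 4), lt_min one_pos (by linarith), min_le_left _ _, ?_⟩
    have h1 := min_le_left 1 (ε / 4)
    have h2 := min_le_right 1 (ε / 4)
    have h3 : 0 < min 1 (ε / 4) := lt_min one_pos (by linarith)
    nlinarith
  obtain ⟨N, hN⟩ := eventually_atTop.1 (hω.and (err_small hκ0))
  have h1 := Pool.Agent.Q65.GL.t_EXT z θ (θ + κ) hz hθ hθ1 (by linarith) hfreq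
  have h2 := (h1.and_eventually ((exp_law hz hl (θ + κ) κ (by linarith) hκ0 hκ1).and (eventually_ge_atTop 1)))
  rw [frequently_atTop]
  intro a
  have h3 : ∀ᶠ K : ℕ in atTop, N + a ≤ 2 ^ K := by
    filter_upwards [eventually_ge_atTop (N + a)] with K hK
    exact hK.trans Nat.lt_two_pow_self.le
  obtain ⟨K, ⟨⟨n, he, hn1, hn2, h4⟩, h5, hK⟩, h6⟩ := (h2.and_eventually h3).exists
  have h2n : 2 ≤ n := by
    have : (2 : ℕ) ^ 1 ≤ 2 ^ K := Nat.pow_le_pow_right (by norm_num) hK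
    omega
  refine ⟨n, by omega, he, ?_⟩
  have hSS := SS_one he h2n
  have h7 := (h5 n hn1 hn2 ((θ + κ) * SS {0, n}) (by nlinarith)).1 (fun j _ hj => h4 j hj)
  obtain ⟨h8, h9⟩ := hN n (by omega)
  have h10 := (abs_le.1 h8).2
  have h11 := h9 he
  have h12 : (1 + κ) * ((θ + κ) * SS {0, n} * n / Real.log n ^ 2) = (1 + κ) * (θ + κ) * HLt n := by
    unfold HLt
    ring
  rw [h12] at h7
  have h13 := mul_le_mul_of_nonneg_right hκ (HLt_nonneg n)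
  linarith

/-- The powers of two. -/
theorem powers (hz : Monotone z) (hl : Tendsto (fun k : ℕ => Real.log (z k) / k) atTop (𝓝 0)) (hinf : Tendsto z atTop atTop)
    (hA : IsModel μ (pr z) A) : ∀ᵐ ω ∂μ, ∀ ε : ℝ, 0 < ε → ∀ᶠ K : ℕ in atTop, (1 - ε) * HLt (2 ^ K) ≤ gold (A ω) (2 ^ K) := by
  filter_upwards [Q52.GL.t_CONC Ω μ (pr z) A hA] with ω hω ε hε
  obtain ⟨κ, hκ0, hκ1, hκ⟩ : ∃ κ : ℝ, 0 < κ ∧ κ ≤ 1 ∧ 1 - ε ≤ (1 - κ) - κ := by
    refine ⟨min 1 (ε / 4), lt_min one_pos (by linarith), min_le_left _ _, ?_⟩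
    have h2 := min_le_right 1 (ε / 4)
    linarith
  have h6 : Tendsto (fun K : ℕ => 2 ^ K) atTop atTop := tendsto_pow_atTop_atTop_of_one_lt (by norm_num : 1 < 2)
  obtain ⟨J, hJ⟩ := eventually_atTop.1 (hinf.eventually_ge_atTop 3)
  filter_upwards [exp_law hz hl 1 κ one_pos hκ0 hκ1, eventually_ge_atTop 1, eventually_ge_atTop (2 * J), h6.eventually hω,
    h6.eventually (err_small hκ0)] with K h4 hK hKJ h8 h9
  have he : Even (2 ^ K) := (even_two).pow_of_ne_zero (by omega)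
  have h2n : 2 ≤ 2 ^ K := by
    have : (2 : ℕ) ^ 1 ≤ 2 ^ K := Nat.pow_le_pow_right (by norm_num) hK
    omega
  have hSS := SS_one he h2n
  have h7 := (h4 (2 ^ K) le_rfl (by rw [pow_succ]; omega) (SS {0, 2 ^ K}) hSS).2
    (fun j hj _ => Pool.Agent.Q65.GL.t_SER.2 K (z j) hK (hJ j (by omega)))
  have h10 := (abs_le.1 h8).1
  have h11 := h9 he
  have h12 : (1 - κ) * (SS {0, 2 ^ K} * ((2 ^ K : ℕ) : ℝ) / Real.log ((2 ^ K : ℕ) : ℝ) ^ 2) = (1 - κ) * HLt (2 ^ K) := by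
    unfold HLt
    ring
  rw [h12] at h7
  have h13 := mul_le_mul_of_nonneg_right hκ (HLt_nonneg (2 ^ K))
  linarith

end Pool.Agent.Q120.GL
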