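import Pool.Agent.Q120.HL.H4
import Pool.Agent.Q120.GM.Indep
import Pool.Agent.Q112.LE.Expo
import Pool.Agent.Y843.HS.Stm

/-!
# Project GL: Goldbach's problem in the sieved models of all levels

Model of level `z` (`pr z` from `Q120.CL.C4`): `n ∈ [2 ^ k, 2 ^ (k + 1))` is in the random set with probability
`min 1 (1 / (V log n))`, `V = ∏_{p < z k} (1 - 1/p) = Vf (z k)`, if no prime `p < z k` divides `n`, else never; `z` is
nondecreasing and `log (z k) = o(k)` (all levels up to `x ^ o(1)`). Results of the project (assembled from the jobs):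
almost surely the number `gold` of ordered representations of the even `n` satisfies
`(θ - o(1)) 𝔖(n) n / log ^ 2 n ≤ gold ≤ (1 + o(1)) 𝔖(n) n / log ^ 2 n`, `θ = min 1 (liminf log (z k) / log k)`, and the
constant `θ` is exact. So the order of magnitude `n ^ 2 / (φ(n) log ^ 2 n)` holds if and only if the level is at least a
power of `log x`, and the Hardy–Littlewood formula if and only if the level is at least `(log x) ^ (1 - o(1))`.

Each job is a definition `J_… : Prop`; a theorem `t_… : J_…` is to be proved. Notation of `Q120.HL`: `nu D p` = number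
of classes of `D` modulo `p`, `loc D p = (1 - nu D p / p) / (1 - 1/p) ^ |D|`, `Sz D z = ∏_{p < z} loc D p`,
`SS D = ∏' p, loc D p`; `H4` contains `SS_lower`, `SS_upper`, `loc_lower`, `loc_le_one`, `Sz_tendsto`, `Sz_split`; `H6`
contains `Vratio`, `ceil_near`, `low_ratio` (the same for `log k` in place of `k`), `H7` the sets `Dy`.
`Vf_lim : Vf z * log z → exp (-γ)` (`Q120.CL.C2`), `Vf_anti` (`Q120.CL.M6`), `PQ z = ∏_{p < z} p ≤ 4 ^ z` (`PQ_le`, `CL.C6`).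
-/

set_option autoImplicit false

namespace Pool.Agent.Q120.GL

open Finset Filter Topology MeasureTheory Pool.Agent.Q120.GM Pool.Agent.Q120.CL Pool.Agent.Q120.MG Pool.Agent.Q120.HL

open Classical in
/-- The number of ordered representations of `n` as a sum of two elements of `S`. -/
noncomputable def gold (S : Set ℕ) (n : ℕ) : ℕ := ((range (n + 1)).filter (fun a => a ∈ S ∧ n - a ∈ S)).card

/-- The expected number of representations. -/
noncomputable def EG (p : ℕ → ℝ) (n : ℕ) : ℝ := ∑ a ∈ range (n + 1), p a * p (n - a)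

/-- The density of the `m` with `m` not divisible by the primes `p < w` and `n - m` not divisible by the primes `p < w'`. -/
noncomputable def dd (n w w' : ℕ) : ℝ :=
  (∏ p ∈ (range w).filter Nat.Prime, (1 - (nu {0, n} p : ℝ) / p)) * ∏ p ∈ (Ico w w').filter Nat.Prime, (1 - 1 / (p : ℝ))

open Classical in
/-- **Job FL.** The fundamental lemma with one or two classes (two levels `w ≤ w'`).
Proof. From `Pool.Agent.Y151.HS.flc : Pool.Agent.Y843.HS.S_FLC` with dimension `2`: let `C` be its constant, `s₀ = 3 C`,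
`b ≥ 3 C` with `(1/2) ^ b ≤ κ`. For a prime `p < w'` let `Om p = {0, n % p}` if `p < w`, `Om p = {n % p}` if `w ≤ p`, and
`Om p = ∅` for all other `p`. Let `J` be minimal with `w' ≤ 2 ^ 2 ^ J`, so `2 ^ 2 ^ J ≤ max 2 (w' ^ 2)`. Let `D` be the product
of the primes `≤ s₀` (coprime to the primes of `Pr s₀ _`). The integers to be counted are those in the classes `a` modulo
`D`, `a < D`, such that `a % p ∉ Om p` for all primes `p ≤ s₀`, which avoid `Om p` for the primes `p > s₀`. Apply the lemma to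
each such class and add: the number of the classes is `D ∏_{p ≤ s₀} (1 - |Om p| / p)` by
`Pool.Agent.H373R2.T7.crt_card`; the errors add up to `κ X dd + D (max 2 (w' ^ 2)) ^ (C b)`, at most
`κ X dd + w' ^ s + B` with `s = 2 C b + D` (`x ^ a D ≤ x ^ (a + D)` for `x ≥ 2`), `B` a constant. (`|Om p| = nu {0, n} p` for
`p < w`, `= 1` for `w ≤ p < w'`.) -/
def J_FL : Prop := ∀ κ : ℝ, 0 < κ → ∃ s B : ℕ, 1 ≤ s ∧ ∀ w w' : ℕ, w ≤ w' → ∀ n A X : ℕ,
  |(((Ioc A (A + X)).filter (fun m => ∀ p ∈ (range w').filter Nat.Prime, m % p ≠ n % p ∧ (p < w → m % p ≠ 0))).card : ℝ) -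
    X * dd n w w'| ≤ κ * (X * dd n w w') + ((w' : ℝ) ^ s + B)

/-- **Job FIB** (uses FL). The part of the expectation with both summands in given blocks.
Proof. Let `V = Vf (z i)`, `V' = Vf (z j)`. As `2 a < n` for `a < hi`, `a ≤ n - a`, so `i ≤ j ≤ K` and `z i ≤ z j ≤ z K`;
`2 ^ K ≤ lo K ^ 4` gives `i ≥ K - 4 log K / log 2 - 1`, so `i ≥ K / 2` for large `K`. For large `K` the minimum in `pr` is not
`1` (`Vf w log w → exp (-γ)`, so `Vf (z K) ≥ c / (1 + log (z K))`, while `log a ≥ (K / 2) log 2` and `log (z K) = o(K)`). So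
`pr z a * pr z (n - a)` is `0` unless `a` is free of primes `< z i` and `n - a` of primes `< z j`, and then it is
`1 / (V V' log a log (n - a))`, between `1 / (V V' log ^ 2 n)` and `(1 + κ / 4) / (V V' log ^ 2 n)`, because
`log a ≥ log n - 4 log K - 2` for `a ≥ lo`. The number of these `a` in `Ico lo hi` is given by FL with `κ / 4` (`m = a`,
`p ∣ n - a` iff `a % p = n % p`), and `dd n (z i) (z j) / (V V') = Sz {0, n} (z i)` (`n ≥ 1`, two elements). The error term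
`(z K ^ s + B) / (V V')` is at most `2 ^ (K / 2)` for large `K` as `log (z K) = o(K)` and `1 / V ≤ z K + 1` (`le_Vf2`). -/
def J_FIB : Prop := J_FL → ∀ z : ℕ → ℕ, Monotone z → Tendsto (fun k : ℕ => Real.log (z k) / k) atTop (𝓝 0) →
  ∀ κ : ℝ, 0 < κ → κ ≤ 1 → ∀ᶠ K : ℕ in atTop, ∀ n : ℕ, 2 ^ K ≤ n → n < 2 ^ (K + 1) → ∀ i j lo hi : ℕ, lo ≤ hi →
    2 ^ K ≤ lo * K ^ 4 → 2 * hi ≤ n + 1 → (∀ a ∈ Ico lo hi, Nat.log 2 a = i ∧ Nat.log 2 (n - a) = j) →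
      |∑ a ∈ Ico lo hi, pr z a * pr z (n - a) - (hi - lo) * Sz {0, n} (z i) / Real.log n ^ 2| ≤
        κ * ((hi - lo) * Sz {0, n} (z i) / Real.log n ^ 2) + ((2 : ℝ) ^ K) ^ ((1 : ℝ) / 2)

/-- **Job SUMM** (uses the conclusion of FIB for one `κ`). The expectation.
Proof. `EG = 2 ∑_{1 ≤ a, 2 a < n} + (at most 1)` (symmetry `a ↦ n - a`; `pr z 0 = 0`). Let `y` be the least integer with
`2 ^ K ≤ y K ^ 4`; the `a < y` contribute at most `y ≤ 2 ^ K / K ^ 4 + 1`. The `a` with `y ≤ a`, `2 a < n` are divided according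
to `i = Nat.log 2 a`, `j = Nat.log 2 (n - a)`: `j ∈ {K - 1, K}`, `i ≥ K / 2`, `i ≤ K`, and each class is an interval
`Ico lo hi`; there are at most `2 (K + 1)` nonempty classes. Apply FIB with `κ / 8` to each of them: in the upper bound
`Sz {0, n} (z i) ≤ G`, and the lengths add up to at most `n / 2`; in the lower bound `Sz {0, n} (z i) ≥ G` and the lengths
add up to at least `n / 2 - y - 1`. All errors are `O (2 ^ K / K ^ 4)`, while `G n / log ^ 2 n ≥ η 2 ^ K / (K + 1) ^ 2`. -/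
def J_SUMM : Prop := ∀ z : ℕ → ℕ, (∀ κ : ℝ, 0 < κ → κ ≤ 1 → ∀ᶠ K : ℕ in atTop, ∀ n : ℕ, 2 ^ K ≤ n → n < 2 ^ (K + 1) →
  ∀ i j lo hi : ℕ, lo ≤ hi → 2 ^ K ≤ lo * K ^ 4 → 2 * hi ≤ n + 1 → (∀ a ∈ Ico lo hi, Nat.log 2 a = i ∧ Nat.log 2 (n - a) = j) →
      |∑ a ∈ Ico lo hi, pr z a * pr z (n - a) - (hi - lo) * Sz {0, n} (z i) / Real.log n ^ 2| ≤
        κ * ((hi - lo) * Sz {0, n} (z i) / Real.log n ^ 2) + ((2 : ℝ) ^ K) ^ ((1 : ℝ) / 2)) →
  ∀ η κ : ℝ, 0 < η → 0 < κ → κ ≤ 1 → ∀ᶠ K : ℕ in atTop, ∀ n : ℕ, 2 ^ K ≤ n → n < 2 ^ (K + 1) → ∀ G : ℝ, η ≤ G →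
    ((∀ j, K ≤ 2 * j → j ≤ K → Sz {0, n} (z j) ≤ G) → EG (pr z) n ≤ (1 + κ) * (G * n / Real.log n ^ 2)) ∧
    ((∀ j, K ≤ 2 * j → j ≤ K → G ≤ Sz {0, n} (z j)) → (1 - κ) * (G * n / Real.log n ^ 2) ≤ EG (pr z) n)

/-- **Job CONC.** Concentration for all `n`, for every model with independent elements.
Proof. `gold (A ω) n = 2 X + δ`, `X` the number of `a` with `2 a < n` and `a, n - a ∈ A`, `δ ∈ {0, 1}` (`a = n / 2`);
`EG p n = 2 M + δ'`, `M = ∑_{2 a < n} p a p (n - a)`, `0 ≤ δ' ≤ 1`. `X = num J G`, `J = {a : 2 a < n}`, `G a = all A {a, n - a}`,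
`Mutual` by `indep_many`. `dev_two` with `ε = |J| ^ (-1/8) / 4`: the probability of `|X - M| ≥ ε |J|` is at most
`2 exp (-|J| ^ (3/4) / 64)`, summable; `2 ε |J| + 2 ≤ n ^ (7/8)`. Borel-Cantelli (`bc`). -/
def J_CONC : Prop := ∀ (Ω : Type) [MeasurableSpace Ω] (μ : Measure Ω) [IsProbabilityMeasure μ] (p : ℕ → ℝ) (A : Ω → Set ℕ),
  IsModel μ p A → ∀ᵐ ω ∂μ, ∀ᶠ n : ℕ in atTop, |(gold (A ω) n : ℝ) - EG p n| ≤ (n : ℝ) ^ ((7 : ℝ) / 8)

/-- **Job SER.** The singular series of `{0, n}`, `n ≥ 2` even.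
Proof. `nu {0, n} p = 1` if `p ∣ n`, else `2`. So `loc = 1 / (1 - 1/p)` if `p ∣ n` and `loc = 1 - 1 / (p - 1) ^ 2` if `p` is odd
and does not divide `n`; `loc` at `2` is `2`. `∏_{3 ≤ p < w} (1 - 1 / (p - 1) ^ 2) ≥ ∏_{2 ≤ m < w} (1 - 1 / m ^ 2) ≥ 1/2` (telescoping;
all factors are `≤ 1`). (a): `Sz ≥ 2 * (1/2)` for `w ≥ 3`, and `Sz = 1` for `w ≤ 2`. (b): limit of (a), `Sz_tendsto`. (c): for
`w > n` `Sz {0, n} w = (∏_{p ∣ n} 1 / (1 - 1/p)) * ∏_{p < w, p ∤ n} (1 - 1 / (p - 1) ^ 2)`, the first product is `n / φ(n)`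
(`Nat.totient_eq_mul_prod_factors`), the second in `[1/2, 1]`; limit. (d): for `n = 2 ^ K` all factors at odd primes are
`≤ 1` (`loc_le_one`), so `Sz {0, 2 ^ K} w` is nonincreasing in `w ≥ 3`. -/
def J_SER : Prop := (∀ n : ℕ, Even n → 2 ≤ n → (∀ w : ℕ, 1 ≤ Sz {0, n} w) ∧ 1 ≤ SS {0, n} ∧
    1 / 2 * ((n : ℝ) / Nat.totient n) ≤ SS {0, n} ∧ SS {0, n} ≤ (n : ℝ) / Nat.totient n) ∧
  ∀ K w : ℕ, 1 ≤ K → 3 ≤ w → SS {0, 2 ^ K} ≤ Sz {0, 2 ^ K} w

/-- **Job RAT.** The partial singular series at the level `≥ k ^ (θ - o(1))`.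
Proof. As `Pool.Agent.Q120.HL.low_ratio` (module `Q120.HL.H6`) with `log k` replaced by `k`, `r = 1` and `D = {0, n}`: choose
`δ` with `κ < (θ - δ) / (1 + δ)`, `0 < δ < θ`; `u = ⌈K ^ (θ - δ)⌉`, `v = ⌈K ^ (1 + δ)⌉`; `Vf u / Vf v → (1 + δ) / (θ - δ)` by
`Vf_lim`, and `exp (4 * (4 log n) / v) → 1` uniformly for `n < 2 ^ (K + 1)`. `u ≤ z j` for `K ≤ 2 j`, `K` large. `SS_upper` with
`H = n`, `z = u`, `y = v`, `z₁ = z j`. -/
def J_RAT : Prop := ∀ (z : ℕ → ℕ) (θ κ : ℝ), 0 < θ → θ ≤ 1 → κ < θ → (∀ δ : ℝ, 0 < δ → ∀ᶠ k : ℕ in atTop, (k : ℝ) ^ (θ - δ) ≤ z k) →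
  ∀ᶠ K : ℕ in atTop, ∀ n : ℕ, 1 ≤ n → n < 2 ^ (K + 1) → ∀ j, K ≤ 2 * j → κ * SS {0, n} ≤ Sz {0, n} (z j)

/-- **Job EXT.** The extremal even numbers.
Proof. Let `y = K / 4` (natural division), `P = PQ y ≤ 4 ^ y ≤ 2 ^ (K / 2)`, `n` the least multiple of `P` with `n ≥ 2 ^ K`; so
`n < 2 ^ K + P ≤ 2 ^ (K + 1)`, even for `y ≥ 3`. `Sz {0, n} w = 1 / Vf w` for `w ≤ y`, and `SS {0, n} ≥ (1 - 8 / y) / Vf y`
(`SS_lower` with `z = y`). Let `η > 0` with `θ + η < min 1 κ`, and let `K` be large with `z K ≤ K ^ (θ + η)`; with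
`u = ⌊K ^ (θ + η)⌋ ≤ y`: for `j ≤ K` `z j ≤ z K ≤ u`, so `Sz {0, n} (z j) = 1 / Vf (z j) ≤ 1 / Vf u` (`Vf_anti`), and
`(1 / Vf u) / SS ≤ (Vf y / Vf u) / (1 - 8 / y) → θ + η < κ` (`Vf_lim`, `log u / log y → θ + η`; as in `H6.Vratio`). -/
def J_EXT : Prop := ∀ (z : ℕ → ℕ) (θ κ : ℝ), Monotone z → 0 ≤ θ → θ < 1 → θ < κ →
  (∀ η : ℝ, 0 < η → ∃ᶠ k : ℕ in atTop, (z k : ℝ) ≤ (k : ℝ) ^ (θ + η)) →
  ∃ᶠ K : ℕ in atTop, ∃ n : ℕ, Even n ∧ 2 ^ K ≤ n ∧ n < 2 ^ (K + 1) ∧ ∀ j, j ≤ K → Sz {0, n} (z j) ≤ κ * SS {0, n}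

end Pool.Agent.Q120.GL
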